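import Mathlib
import Pool.Agent.X116.Leg3

/-!
# Legendre multiplier sequences interpolated by polynomials

If `Q` is a real polynomial and `{Q(k)}` is a Legendre multiplier sequence then `Q(t)` is a real
polynomial in `t (t + 1)`.  In particular the degree of `Q` is even, so no sequence of odd degree is
a Legendre multiplier sequence.
-/

open Polynomial

namespace Pool.Agent.Results.MP_87bea5_an.EvenDegreeOnly

/-- The Legendre polynomials by Rodrigues' formula. -/
noncomputable def legendre (n : ℕ) : ℝ[X] :=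
  C (1 / (2 ^ n * (n.factorial : ℝ))) * derivative^[n] ((X ^ 2 - 1 : ℝ[X]) ^ n)

/-- `p` has only real zeros; the zero polynomial and nonzero constants count. -/
def RealRooted (p : ℝ[X]) : Prop := p = 0 ∨ ∀ z : ℂ, aeval z p = 0 → z.im = 0

/-- `γ` is a Legendre multiplier sequence: `∑ γ_k a_k P_k` has only real zeros whenever
`∑ a_k P_k` has only real zeros. -/
def LegendreMS (γ : ℕ → ℝ) : Prop :=
  ∀ (n : ℕ) (a : ℕ → ℝ), RealRooted (∑ k ∈ Finset.range (n + 1), C (a k) * legendre k) →
    RealRooted (∑ k ∈ Finset.range (n + 1), C (γ k * a k) * legendre k)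

/-- If `{Q(k)}` is a Legendre multiplier sequence for a real polynomial `Q`, then `Q(t)` is a real
polynomial in `t (t + 1)`; in particular `Q` does not have odd degree. -/
theorem result : ∀ Q : ℝ[X], LegendreMS (fun k => Q.eval (k : ℝ)) →
    (∃ A : ℝ[X], Q = A.comp (X * (X + 1))) ∧ ¬ Odd Q.natDegree := by
  intro Q h
  obtain ⟨A, hA⟩ := Pool.Agent.X116.Leg.main Q legendre (fun n => rfl) (fun n a _ ha => h n a ha)
  refine ⟨⟨A, hA⟩, ?_⟩
  have hdeg : (X * (X + 1) : ℝ[X]).natDegree = 2 := by
    have h1 : (X + 1 : ℝ[X]).natDegree = 1 := by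
      have := natDegree_X_add_C (1 : ℝ)
      simpa using this
    rw [natDegree_mul X_ne_zero (by intro h; rw [h] at h1; simp at h1), natDegree_X, h1]
  rw [hA, natDegree_comp, hdeg]
  intro ho
  rw [Nat.odd_iff] at ho
  omega

end Pool.Agent.Results.MP_87bea5_an.EvenDegreeOnly
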